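import Pool.Agent.helper17.MK.Spec

/-!
# Row mk:QB
-/

set_option autoImplicit false

namespace Pool.Agent.MK

open Finset Real Pool.Agent.helper39.MT Pool.Agent.helper85.FC

theorem QB : QB_stmt := by
  intro ι _ _ k pr M z hpr hM hz
  have hq : ∀ p : ι, 0 ≤ 1 / ((pr p : ℝ) - 1) ∧ 1 / ((pr p : ℝ) - 1) ≤ 1 / 4 := by
    intro p
    have h5 : (5 : ℝ) ≤ pr p := by exact_mod_cast hpr p
    refine ⟨by apply div_nonneg <;> linarith, ?_⟩
    exact one_div_le_one_div_of_le (by norm_num) (by linarith)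
  have hw : ∀ (p : ι) (o : Option (Fin k)), 0 ≤ (if o = none then (1 : ℝ) else
      1 / ((pr p : ℝ) - 1) * (1 + 4 * (1 / ((pr p : ℝ) - 1)))) := by
    intro p o
    have h := (hq p).1
    split_ifs
    · exact zero_le_one
    · positivity
  have h8 : ∀ p : ι, 0 ≤ 1 + 8 * (1 / ((pr p : ℝ) - 1)) ^ 2 := fun p => by positivity
  have hS0 : 0 ≤ ∑ σ : ι → Option (Fin k), (∏ p, (if σ p = none then (1 : ℝ) else
      1 / ((pr p : ℝ) - 1) * (1 + 4 * (1 / ((pr p : ℝ) - 1))))) * z σ ^ 2 :=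
    Finset.sum_nonneg fun σ _ => mul_nonneg (Finset.prod_nonneg fun p _ => hw p _) (sq_nonneg _)
  have hP0 : 0 ≤ ∏ p, (1 + 8 * (1 / ((pr p : ℝ) - 1)) ^ 2) := Finset.prod_nonneg fun p _ => h8 p
  refine ⟨mul_nonneg hP0 hS0, ?_⟩
  have hR0 : 0 ≤ ∏ p, (1 + ((2 * k + 8 : ℕ) : ℝ) / ((pr p : ℝ) - 1)) := by
    refine Finset.prod_nonneg fun p _ => ?_
    have h := (hq p).1
    rw [div_eq_mul_one_div]
    positivity
  have hP : ∏ p, (1 + 8 * (1 / ((pr p : ℝ) - 1)) ^ 2) ≤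
      ∏ p, (1 + ((2 * k + 8 : ℕ) : ℝ) / ((pr p : ℝ) - 1)) := by
    refine Finset.prod_le_prod (fun p _ => h8 p) fun p _ => ?_
    obtain ⟨h0, h1⟩ := hq p
    rw [div_eq_mul_one_div ((2 * k + 8 : ℕ) : ℝ)]
    push_cast
    have hk : (0 : ℝ) ≤ k := Nat.cast_nonneg k
    nlinarith [mul_nonneg hk h0, mul_nonneg h0 (sub_nonneg.2 h1)]
  have hS : ∑ σ : ι → Option (Fin k), (∏ p, (if σ p = none then (1 : ℝ) else
      1 / ((pr p : ℝ) - 1) * (1 + 4 * (1 / ((pr p : ℝ) - 1))))) * z σ ^ 2 ≤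
      M ^ 2 * ∏ p, (1 + ((2 * k + 8 : ℕ) : ℝ) / ((pr p : ℝ) - 1)) := by
    have e1 : ∑ σ : ι → Option (Fin k), (∏ p, (if σ p = none then (1 : ℝ) else
        1 / ((pr p : ℝ) - 1) * (1 + 4 * (1 / ((pr p : ℝ) - 1))))) =
        ∏ p, ∑ o : Option (Fin k), (if o = none then (1 : ℝ) else
          1 / ((pr p : ℝ) - 1) * (1 + 4 * (1 / ((pr p : ℝ) - 1)))) := by
      rw [Finset.prod_univ_sum, Fintype.piFinset_univ]
    have e2 : ∀ p : ι, ∑ o : Option (Fin k), (if o = none then (1 : ℝ) else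
          1 / ((pr p : ℝ) - 1) * (1 + 4 * (1 / ((pr p : ℝ) - 1)))) =
          1 + (k : ℝ) * (1 / ((pr p : ℝ) - 1) * (1 + 4 * (1 / ((pr p : ℝ) - 1)))) := by
      intro p
      rw [Fintype.sum_option]
      simp
    calc _ ≤ ∑ σ : ι → Option (Fin k), (∏ p, (if σ p = none then (1 : ℝ) else
          1 / ((pr p : ℝ) - 1) * (1 + 4 * (1 / ((pr p : ℝ) - 1))))) * M ^ 2 := by
            refine Finset.sum_le_sum fun σ _ => mul_le_mul_of_nonneg_left ?_
              (Finset.prod_nonneg fun p _ => hw p _)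
            rw [← sq_abs (z σ)]
            exact pow_le_pow_left₀ (abs_nonneg _) (hz σ) 2
      _ = M ^ 2 * ∏ p, (1 + (k : ℝ) * (1 / ((pr p : ℝ) - 1) *
          (1 + 4 * (1 / ((pr p : ℝ) - 1))))) := by
            rw [← Finset.sum_mul, e1, mul_comm]
            simp only [e2]
      _ ≤ _ := by
            refine mul_le_mul_of_nonneg_left ?_ (sq_nonneg M)
            refine Finset.prod_le_prod (fun p _ => ?_) fun p _ => ?_
            · have h := (hq p).1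
              positivity
            · obtain ⟨h0, h1⟩ := hq p
              rw [div_eq_mul_one_div ((2 * k + 8 : ℕ) : ℝ)]
              push_cast
              have hk : (0 : ℝ) ≤ k := Nat.cast_nonneg k
              have h3 : 1 / ((pr p : ℝ) - 1) * (1 + 4 * (1 / ((pr p : ℝ) - 1))) ≤
                  2 * (1 / ((pr p : ℝ) - 1)) := by
                nlinarith [mul_nonneg h0 (sub_nonneg.2 h1)]
              nlinarith [mul_le_mul_of_nonneg_left h3 hk]
  calc QF pr z ≤ (∏ p, (1 + ((2 * k + 8 : ℕ) : ℝ) / ((pr p : ℝ) - 1))) *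
        (M ^ 2 * ∏ p, (1 + ((2 * k + 8 : ℕ) : ℝ) / ((pr p : ℝ) - 1))) :=
        mul_le_mul hP hS hS0 hR0
    _ = _ := by ring

end Pool.Agent.MK
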